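import Pool.Agent.Helper35.KL.Ex.X2

/-!
# Existence of the Kazhdan-Lusztig basis
-/

namespace Pool.Agent.Helper35.KL

/-- The generic Hecke algebra of a weighted Coxeter group with its standard basis. -/
structure HD {B : Type} (M : CoxeterMatrix B) (L : M.Group → ℤ) (H : Type) [Ring H]
    [Algebra LP H] where
  /-- the standard basis -/
  T : Module.Basis M.Group LP H
  T_mul : ∀ w w', len M (w * w') = len M w + len M w' → T (w * w') = T w * T w'
  T_sq : ∀ b, T (sm M b) * T (sm M b) =
    1 + (qq (L (sm M b)) - qq (-L (sm M b))) • T (sm M b)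

namespace HD

variable {B : Type} {M : CoxeterMatrix B} {L : M.Group → ℤ} {H : Type} [Ring H] [Algebra LP H]
variable (D : HD M L H)

/-- The coefficient in the quadratic relation. -/
noncomputable def xi (b : B) : LP := qq (L (sm M b)) - qq (-L (sm M b))

theorem invert_xi (b : B) : LaurentPolynomial.invert (xi (L := L) b) = -xi (L := L) b := by
  rw [xi, map_sub, LaurentPolynomial.invert_T, LaurentPolynomial.invert_T, neg_neg]
  ring

theorem T_one : D.T 1 = 1 := by
  have h1 : ∀ w, D.T w * D.T 1 = D.T w := by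
    intro w
    rw [← D.T_mul w 1 (by rw [mul_one, len_one, add_zero]), mul_one]
  have h2 : ∀ h : H, h * D.T 1 = h := by
    intro h
    have h3 : h ∈ Submodule.span LP (Set.range D.T) := D.T.mem_span h
    refine Submodule.span_induction (p := fun h _ => h * D.T 1 = h) ?_ ?_ ?_ ?_ h3
    · rintro _ ⟨w, rfl⟩
      exact h1 w
    · rw [zero_mul]
    · intro x y _ _ hx hy
      rw [add_mul, hx, hy]
    · intro a x _ hx
      rw [smul_mul_assoc, hx]
  have h3 := h2 1
  rwa [one_mul] at h3

theorem T_sm_mul {b : B} {w : M.Group} (h : len M (sm M b * w) = len M w + 1) :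
    D.T (sm M b) * D.T w = D.T (sm M b * w) := by
  rw [D.T_mul _ _ (by rw [h, len_sm]; ring)]

theorem T_sm_sq (b : B) : D.T (sm M b) * D.T (sm M b) = 1 + xi (L := L) b • D.T (sm M b) :=
  D.T_sq b

theorem T_sm_mul' {b : B} {w : M.Group} (h : len M (sm M b * w) + 1 = len M w) :
    D.T (sm M b) * D.T w = D.T (sm M b * w) + xi (L := L) b • D.T w := by
  have h1 : D.T w = D.T (sm M b) * D.T (sm M b * w) := by
    rw [D.T_sm_mul (by rw [sm_cancel]; omega), sm_cancel]
  conv_lhs => rw [h1]
  rw [← mul_assoc, T_sm_sq, add_mul, one_mul, smul_mul_assoc, ← h1]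

theorem T_mul_sm {b : B} {w : M.Group} (h : len M (w * sm M b) = len M w + 1) :
    D.T w * D.T (sm M b) = D.T (w * sm M b) := by
  rw [D.T_mul _ _ (by rw [h, len_sm])]

/-- The inverse of `T s`. -/
noncomputable def Ti (b : B) : H := D.T (sm M b) - xi (L := L) b • 1

theorem T_Ti (b : B) : D.T (sm M b) * D.Ti b = 1 := by
  rw [Ti, mul_sub, T_sm_sq, mul_smul_comm, mul_one]
  abel

theorem Ti_T (b : B) : D.Ti b * D.T (sm M b) = 1 := by
  rw [Ti, sub_mul, T_sm_sq, smul_mul_assoc, one_mul]
  abel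

theorem Ti_Ti (b : B) : D.Ti b * D.Ti b = 1 - xi (L := L) b • D.Ti b := by
  have h1 : D.Ti b * D.Ti b = (D.T (sm M b) - xi (L := L) b • 1) * D.Ti b := rfl
  rw [h1, sub_mul, T_Ti, smul_mul_assoc, one_mul]

theorem isUnit_T (w : M.Group) : IsUnit (D.T w) := by
  induction w using len_induction with
  | h1 =>
    rw [T_one]
    exact isUnit_one
  | hs b w hl ih =>
    rw [← D.T_sm_mul hl]
    exact IsUnit.mul ⟨⟨D.T (sm M b), D.Ti b, D.T_Ti b, D.Ti_T b⟩, rfl⟩ ih

/-- The image of `T w` under the bar involution. -/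
noncomputable def bT (w : M.Group) : H := Ring.inverse (D.T w⁻¹)

theorem bT_mul (w : M.Group) : D.bT w * D.T w⁻¹ = 1 :=
  Ring.inverse_mul_cancel _ (D.isUnit_T w⁻¹)

theorem mul_bT (w : M.Group) : D.T w⁻¹ * D.bT w = 1 :=
  Ring.mul_inverse_cancel _ (D.isUnit_T w⁻¹)

theorem bT_eq {w : M.Group} {x : H} (h : D.T w⁻¹ * x = 1) : D.bT w = x := by
  calc D.bT w = D.bT w * (D.T w⁻¹ * x) := by rw [h, mul_one]
    _ = x := by rw [← mul_assoc, bT_mul, one_mul]

theorem bT_one : D.bT 1 = 1 := by
  apply D.bT_eq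
  rw [inv_one, T_one, one_mul]

theorem bT_sm (b : B) : D.bT (sm M b) = D.Ti b := by
  apply D.bT_eq
  rw [sm_inv, T_Ti]

theorem bT_sm_mul {b : B} {w : M.Group} (h : len M (sm M b * w) = len M w + 1) :
    D.bT (sm M b * w) = D.Ti b * D.bT w := by
  apply D.bT_eq
  have h4 : (sm M b * w)⁻¹ = w⁻¹ * sm M b := by rw [mul_inv_rev, sm_inv]
  have h5 : len M (w⁻¹ * sm M b) = len M (sm M b * w) := by rw [← h4, len_inv]
  rw [h4, ← D.T_mul_sm (by rw [h5, len_inv]; exact h), mul_assoc, ← mul_assoc (D.T (sm M b)),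
    T_Ti, one_mul, mul_bT]

/-- The bar involution as an additive map. -/
noncomputable def barA : H →+ H :=
  (Finsupp.liftAddHom fun w =>
    ((AddMonoidHom.flip (smulAddHom LP H)) (D.bT w)).comp
      (LaurentPolynomial.invert (R := ℤ)).toRingEquiv.toAddEquiv.toAddMonoidHom).comp
    D.T.repr.toLinearMap.toAddMonoidHom

theorem barA_smul_T (a : LP) (w : M.Group) :
    D.barA (a • D.T w) = LaurentPolynomial.invert a • D.bT w := by
  have h1 : D.T.repr (a • D.T w) = Finsupp.single w a := by
    rw [map_smul, Module.Basis.repr_self, Finsupp.smul_single, smul_eq_mul, mul_one]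
  have h2 : D.barA (a • D.T w) = (Finsupp.liftAddHom fun w =>
      ((AddMonoidHom.flip (smulAddHom LP H)) (D.bT w)).comp
        (LaurentPolynomial.invert (R := ℤ)).toRingEquiv.toAddEquiv.toAddMonoidHom)
      (D.T.repr (a • D.T w)) := rfl
  rw [h2, h1, Finsupp.liftAddHom_apply_single]
  rfl

theorem barA_T (w : M.Group) : D.barA (D.T w) = D.bT w := by
  have h1 := D.barA_smul_T 1 w
  rwa [one_smul, map_one, one_smul] at h1

theorem barA_smul (a : LP) (h : H) : D.barA (a • h) = LaurentPolynomial.invert a • D.barA h := by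
  have h3 : h ∈ Submodule.span LP (Set.range D.T) := D.T.mem_span h
  refine Submodule.span_induction
    (p := fun h _ => ∀ a : LP, D.barA (a • h) = LaurentPolynomial.invert a • D.barA h)
    ?_ ?_ ?_ ?_ h3 a
  · rintro _ ⟨w, rfl⟩ a
    rw [barA_smul_T, barA_T]
  · intro a
    rw [smul_zero, map_zero, smul_zero]
  · intro x y _ _ hx hy a
    rw [smul_add, map_add, map_add, hx, hy, smul_add]
  · intro c x _ hx a
    rw [smul_smul, hx, hx, map_mul, mul_smul]

theorem barA_one : D.barA 1 = 1 := by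
  rw [← T_one D, barA_T, bT_one, T_one]

theorem barA_T_sm_mul (b : B) (x : H) : D.barA (D.T (sm M b) * x) = D.Ti b * D.barA x := by
  have h3 : x ∈ Submodule.span LP (Set.range D.T) := D.T.mem_span x
  refine Submodule.span_induction
    (p := fun x _ => D.barA (D.T (sm M b) * x) = D.Ti b * D.barA x) ?_ ?_ ?_ ?_ h3
  · rintro _ ⟨w, rfl⟩
    rcases len_sm_mul b w with h | h
    · rw [D.T_sm_mul h, barA_T, barA_T, D.bT_sm_mul h]
    · have h5 : D.bT w = D.Ti b * D.bT (sm M b * w) := by
        rw [← D.bT_sm_mul (by rw [sm_cancel]; omega), sm_cancel]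
      rw [D.T_sm_mul' h, map_add, barA_T, barA_smul, barA_T, invert_xi]
      conv_rhs => rw [h5]
      rw [← mul_assoc, Ti_Ti, sub_mul, one_mul, smul_mul_assoc, ← h5, neg_smul, sub_eq_add_neg]
  · rw [mul_zero, map_zero, mul_zero]
  · intro x y _ _ hx hy
    rw [mul_add, map_add, map_add, mul_add, hx, hy]
  · intro a x _ hx
    rw [mul_smul_comm, barA_smul, barA_smul, hx, mul_smul_comm]

theorem barA_mul (x y : H) : D.barA (x * y) = D.barA x * D.barA y := by
  have h1 : ∀ w y, D.barA (D.T w * y) = D.barA (D.T w) * D.barA y := by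
    intro w
    induction w using len_induction with
    | h1 =>
      intro y
      rw [T_one, one_mul, barA_one, one_mul]
    | hs b w hl ih =>
      intro y
      rw [← D.T_sm_mul hl, mul_assoc, barA_T_sm_mul, ih, barA_T_sm_mul, mul_assoc]
  have h3 : x ∈ Submodule.span LP (Set.range D.T) := D.T.mem_span x
  refine Submodule.span_induction (p := fun x _ => D.barA (x * y) = D.barA x * D.barA y)
    ?_ ?_ ?_ ?_ h3
  · rintro _ ⟨w, rfl⟩
    exact h1 w y
  · rw [zero_mul, map_zero, zero_mul]
  · intro a b _ _ ha hb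
    rw [add_mul, map_add, map_add, ha, hb, add_mul]
  · intro a b _ hb
    rw [smul_mul_assoc, barA_smul, barA_smul, hb, smul_mul_assoc]

/-- The bar involution. -/
noncomputable def bar : H →+* H where
  toFun := D.barA
  map_one' := D.barA_one
  map_mul' := D.barA_mul
  map_zero' := map_zero D.barA
  map_add' := map_add D.barA

theorem bar_apply (x : H) : D.bar x = D.barA x := rfl

theorem bar_smul (a : LP) (h : H) : D.bar (a • h) = LaurentPolynomial.invert a • D.bar h :=
  D.barA_smul a h

theorem bar_T (w : M.Group) : D.bar (D.T w) * D.T w⁻¹ = 1 := by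
  rw [bar_apply, barA_T, bT_mul]

theorem bar_T_sm (b : B) : D.bar (D.T (sm M b)) = D.T (sm M b) - xi (L := L) b • 1 := by
  rw [bar_apply, barA_T, bT_sm, Ti]

theorem bar_bar (h : H) : D.bar (D.bar h) = h := by
  have h1 : ∀ w, D.bar (D.bar (D.T w)) = D.T w := by
    intro w
    induction w using len_induction with
    | h1 => rw [T_one, map_one, map_one]
    | hs b w hl ih =>
      rw [← D.T_sm_mul hl, map_mul, map_mul, ih]
      congr 1
      rw [bar_T_sm, map_sub, bar_T_sm, D.bar_smul, map_one, invert_xi, neg_smul, sub_neg_eq_add,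
        sub_add_cancel]
  have h3 : h ∈ Submodule.span LP (Set.range D.T) := D.T.mem_span h
  refine Submodule.span_induction (p := fun h _ => D.bar (D.bar h) = h) ?_ ?_ ?_ ?_ h3
  · rintro _ ⟨w, rfl⟩
    exact h1 w
  · rw [map_zero, map_zero]
  · intro a b _ _ ha hb
    rw [map_add, map_add, ha, hb]
  · intro a b _ hb
    rw [D.bar_smul, D.bar_smul, hb, invert_invert]

theorem T_mul_mem_Vl (b : B) (n : ℕ) {x : H} (hx : x ∈ Vl D.T (len M) n) :
    D.T (sm M b) * x ∈ Vl D.T (len M) (n + 1) := by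
  refine Submodule.span_induction (p := fun x _ => D.T (sm M b) * x ∈ Vl D.T (len M) (n + 1))
    ?_ ?_ ?_ ?_ hx
  · rintro _ ⟨y, hy, rfl⟩
    have hy' : len M y < n := hy
    rcases len_sm_mul b y with h | h
    · rw [D.T_sm_mul h]
      exact mem_Vl _ _ (by omega)
    · rw [D.T_sm_mul' h]
      exact Submodule.add_mem _ (mem_Vl _ _ (by omega))
        (Submodule.smul_mem _ _ (mem_Vl _ _ (by omega)))
  · rw [mul_zero]
    exact Submodule.zero_mem _
  · intro a b _ _ ha hb
    rw [mul_add]
    exact Submodule.add_mem _ ha hb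
  · intro a b _ hb
    rw [mul_smul_comm]
    exact Submodule.smul_mem _ _ hb

theorem bar_T_sub (w : M.Group) : D.bar (D.T w) - D.T w ∈ Vl D.T (len M) (len M w) := by
  induction w using len_induction with
  | h1 =>
    rw [T_one, map_one, sub_self]
    exact Submodule.zero_mem _
  | hs b w hl ih =>
    rw [← D.T_sm_mul hl, map_mul, bar_T_sm, sub_mul, smul_mul_assoc, one_mul, hl]
    have h1 : D.bar (D.T w) ∈ Vl D.T (len M) (len M w + 1) := by
      have h2 : D.bar (D.T w) = D.T w + (D.bar (D.T w) - D.T w) := by abel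
      rw [h2]
      exact Submodule.add_mem _ (mem_Vl _ _ (by omega)) (Vl_mono _ _ (by omega) ih)
    have h3 : D.T (sm M b) * D.bar (D.T w) - xi (L := L) b • D.bar (D.T w) -
        D.T (sm M b) * D.T w = D.T (sm M b) * (D.bar (D.T w) - D.T w) -
          xi (L := L) b • D.bar (D.T w) := by
      rw [mul_sub]
      abel
    rw [h3]
    exact Submodule.sub_mem _ (D.T_mul_mem_Vl b _ ih) (Submodule.smul_mem _ _ h1)

theorem exists_C (w : M.Group) : ∃ k : H, D.bar k = k ∧ k - D.T w ∈ Vl D.T (len M) (len M w) ∧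
    k - D.T w ∈ Lat D.T (-1) := by
  obtain ⟨k, hk1, hk2, hk3⟩ := klem D.T D.bar.toAddMonoidHom Set.univ (len M) ⊥ D.bar_smul
    D.bar_bar (by
      intro f hf
      rw [Submodule.mem_bot] at hf ⊢
      rw [hf, map_zero]) (by
      intro f hf w _
      rw [Submodule.mem_bot] at hf
      rw [hf, map_zero, Finsupp.zero_apply]) (by
      intro w _
      have h1 := D.bar_T_sub w
      refine Submodule.mem_sup_left ?_
      simpa [Vl] using h1) w (Set.mem_univ _)
  rw [Submodule.mem_bot] at hk3
  refine ⟨k, sub_eq_zero.1 hk3, ?_, hk2⟩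
  simpa [Vl] using hk1

theorem exists_KLD : ∃ D' : KLD M L H, D'.T = D.T := by
  choose k hk1 hk2 hk3 using D.exists_C
  refine ⟨{ T := D.T, T_mul := D.T_mul, T_sq := D.T_sq, bar := D.bar, bar_smul := D.bar_smul,
            bar_T := D.bar_T, C := triB D.T (len M) k hk2, bar_C := ?_, C_T := ?_ }, rfl⟩
  · intro w
    rw [triB_apply, hk1]
  · intro w y
    rw [triB_apply]
    exact hk3 w y

end HD

/-- Proof. `T 1 = 1` (see the proof of `KLD.T_one`). Let `ξ b = qq (L (sm M b)) - qq (-L (sm M b))`.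
`T s` is a unit with inverse `T s - ξ b • 1`, so all `T w` are units (`len_induction`). Let `bar` be the
additive map with `bar (a • T w) = invert a • (T w⁻¹)⁻¹` (for instance
`bar h = (T.repr h).sum fun w a => invert a • (T w⁻¹)⁻¹`, or a semilinear map given by the basis).
`bar (T s * T w) = bar (T s) * bar (T w)`: if `ℓ (s w) = ℓ w + 1` both sides are
`(T (w⁻¹) * T s)⁻¹`, and otherwise `w = s v` with `ℓ w = ℓ v + 1`,
`T s * T w = T v + ξ b • T w` and `(T s)⁻¹ ^ 2 = 1 - ξ b • (T s)⁻¹`. So by induction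
`bar (T w * h) = bar (T w) * bar h`, and `bar` is a ring homomorphism. Then `bar (T w) - T w` is in
`Vl T (len M) (len M w)` and `bar (bar h) = h` (see the proofs of `KLD.bar_T_sub` and
`KLD.bar_bar`), and `klem` with `J = univ`, `F = ⊥` (see the proof of `KLD.C_sub_T`) gives elements
`C w`, which are a basis by `triB`. -/
theorem exists_KLD_of_hecke {B : Type} (M : CoxeterMatrix B) (L : M.Group → ℤ) {H : Type} [Ring H]
    [Algebra LP H] (T : Module.Basis M.Group LP H)
    (hT : ∀ w w', len M (w * w') = len M w + len M w' → T (w * w') = T w * T w')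
    (hT2 : ∀ b, T (sm M b) * T (sm M b) =
      1 + (qq (L (sm M b)) - qq (-L (sm M b))) • T (sm M b)) :
    ∃ D : KLD M L H, D.T = T :=
  HD.exists_KLD ⟨T, hT, hT2⟩

/-- Every weighted Coxeter group has a Hecke algebra with a Kazhdan-Lusztig basis. -/
theorem exists_KLD {B : Type} (M : CoxeterMatrix B) (L : M.Group → ℤ) (hL : IsWeight M L) :
    ∃ (H : Type) (_ : Ring H) (_ : Algebra LP H), Nonempty (KLD M L H) := by
  obtain ⟨H, i1, i2, T, h1, h2⟩ := exists_hecke M L hL
  obtain ⟨D, -⟩ := exists_KLD_of_hecke M L T h1 h2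
  exact ⟨H, i1, i2, ⟨D⟩⟩

end Pool.Agent.Helper35.KL
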