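import Pool.Agent.Helper35.KL.Basic

/-!
# Coxeter groups: the exchange condition
-/

namespace Pool.Agent.Helper35.KL

open scoped Classical in
/-- The permutation of `W × ZMod 2` attached to a simple reflection. -/
noncomputable def x1_phi {B : Type} (M : CoxeterMatrix B) (b : B) :
    Equiv.Perm (M.Group × ZMod 2) where
  toFun x := (sm M b * x.1 * sm M b, x.2 + if x.1 = sm M b then 1 else 0)
  invFun x := (sm M b * x.1 * sm M b, x.2 + if x.1 = sm M b then 1 else 0)
  left_inv := by
    rintro ⟨t, e⟩
    have h1 : sm M b * (sm M b * t * sm M b) * sm M b = t := by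
      rw [mul_assoc (sm M b) t, sm_cancel, mul_assoc, sm_sm, mul_one]
    have h2 : (sm M b * t * sm M b = sm M b) ↔ t = sm M b := by
      constructor
      · intro h
        rw [h] at h1
        rw [← h1, sm_sm, one_mul]
      · rintro rfl
        rw [sm_sm, one_mul]
    simp only [h1, h2]
    refine Prod.ext rfl ?_
    simp only
    by_cases ht : t = sm M b
    · simp only [ht, if_true]
      rw [add_assoc, show (1 : ZMod 2) + 1 = 0 from by decide, add_zero]
    · simp only [ht, if_false, add_zero]
  right_inv := by
    rintro ⟨t, e⟩
    have h1 : sm M b * (sm M b * t * sm M b) * sm M b = t := by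
      rw [mul_assoc (sm M b) t, sm_cancel, mul_assoc, sm_sm, mul_one]
    have h2 : (sm M b * t * sm M b = sm M b) ↔ t = sm M b := by
      constructor
      · intro h
        rw [h] at h1
        rw [← h1, sm_sm, one_mul]
      · rintro rfl
        rw [sm_sm, one_mul]
    simp only [h1, h2]
    refine Prod.ext rfl ?_
    simp only
    by_cases ht : t = sm M b
    · simp only [ht, if_true]
      rw [add_assoc, show (1 : ZMod 2) + 1 = 0 from by decide, add_zero]
    · simp only [ht, if_false, add_zero]

open scoped Classical in
theorem x1_phi_apply {B : Type} (M : CoxeterMatrix B) (b : B) (t : M.Group) (e : ZMod 2) :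
    x1_phi M b (t, e) = (sm M b * t * sm M b, e + if t = sm M b then 1 else 0) := rfl

open scoped Classical in
theorem x1_pow {B : Type} (M : CoxeterMatrix B) (b c : B) (n : ℕ) (t : M.Group) (e : ZMod 2) :
    ((x1_phi M b * x1_phi M c) ^ n) (t, e) =
      ((sm M b * sm M c) ^ n * t * ((sm M b * sm M c) ^ n)⁻¹,
        e + ∑ j ∈ Finset.range (2 * n),
          if t = sm M c * (sm M b * sm M c) ^ j then (1 : ZMod 2) else 0) := by
  induction n with
  | zero => simp
  | succ n ih =>
    set r := sm M b * sm M c with hr
    have hrinv : r⁻¹ = sm M c * sm M b := by rw [hr, mul_inv_rev, sm_inv, sm_inv]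
    have hcr : ∀ k : ℕ, sm M c * r ^ k = (r ^ k)⁻¹ * sm M c := by
      intro k
      induction k with
      | zero => simp
      | succ k ihk =>
        rw [pow_succ, ← mul_assoc, ihk, mul_inv_rev, hr, mul_assoc, ← mul_assoc (sm M c) (sm M b),
          ← hrinv]
        have h3 : Commute r⁻¹ (r ^ k)⁻¹ := ((Commute.refl r).inv_left.pow_right k).inv_right
        rw [← hr, ← mul_assoc, h3.eq]
    rw [pow_succ', Equiv.Perm.mul_apply, ih, Equiv.Perm.mul_apply, x1_phi_apply, x1_phi_apply]
    have e1 : (r ^ n * t * (r ^ n)⁻¹ = sm M c) ↔ t = sm M c * r ^ (2 * n) := by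
      rw [two_mul, pow_add, ← mul_assoc, hcr]
      constructor
      · intro h
        rw [← h]
        group
      · intro h
        rw [h]
        group
    have e2 : (sm M c * (r ^ n * t * (r ^ n)⁻¹) * sm M c = sm M b) ↔
        t = sm M c * r ^ (2 * n + 1) := by
      have e3 : sm M c * r ^ (2 * n + 1) = (r ^ n)⁻¹ * (sm M c * sm M b * sm M c) * r ^ n := by
        rw [show 2 * n + 1 = n + 1 + n from by ring, pow_add, pow_succ, ← mul_assoc, ← mul_assoc,
          hcr, hr]
        simp only [mul_assoc]
      rw [e3]
      constructor
      · intro h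
        rw [← h]
        have h1 : sm M c * (sm M c * (r ^ n * t * (r ^ n)⁻¹) * sm M c) * sm M c =
            r ^ n * t * (r ^ n)⁻¹ := by
          rw [mul_assoc (sm M c) (r ^ n * t * (r ^ n)⁻¹), sm_cancel, mul_assoc, sm_sm, mul_one]
        rw [h1]
        group
      · intro h
        rw [h]
        have h1 : r ^ n * ((r ^ n)⁻¹ * (sm M c * sm M b * sm M c) * r ^ n) * (r ^ n)⁻¹ =
            sm M c * sm M b * sm M c := by
          group
        rw [h1, mul_assoc (sm M c) (sm M b), sm_cancel, mul_assoc, sm_sm, mul_one]
    refine Prod.ext ?_ ?_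
    · simp only
      rw [pow_succ', mul_inv_rev, hrinv, hr]
      simp only [mul_assoc]
    · simp only
      rw [show 2 * (n + 1) = 2 * n + 1 + 1 from by ring, Finset.sum_range_succ,
        Finset.sum_range_succ]
      simp only [e1, e2]
      ring

theorem x1_liftable {B : Type} (M : CoxeterMatrix B) : M.IsLiftable (x1_phi M) := by
  classical
  intro b c
  refine Equiv.ext ?_
  rintro ⟨t, e⟩
  rw [x1_pow]
  have h1 : (sm M b * sm M c) ^ M b c = 1 := M.toCoxeterSystem.simple_mul_simple_pow b c
  rw [h1, two_mul, Finset.sum_range_add]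
  simp only [pow_add, h1, one_mul, inv_one, mul_one, Equiv.Perm.coe_one, id_eq]
  refine Prod.ext rfl ?_
  simp only
  have h2 : ∀ x : ZMod 2, x + x = 0 := by decide
  rw [h2, add_zero]

open scoped Classical in
theorem x1_word {B : Type} (M : CoxeterMatrix B) (ω : List B) (t : M.Group) :
    (M.toCoxeterSystem.lift ⟨x1_phi M, x1_liftable M⟩ (M.toCoxeterSystem.wordProd ω)) (t, 0) =
      (M.toCoxeterSystem.wordProd ω * t * (M.toCoxeterSystem.wordProd ω)⁻¹,
        ((M.toCoxeterSystem.rightInvSeq ω).count t : ZMod 2)) := by
  induction ω with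
  | nil => simp
  | cons b ω ih =>
    rw [M.toCoxeterSystem.wordProd_cons, map_mul, Equiv.Perm.mul_apply, ih,
      M.toCoxeterSystem.lift_apply_simple (x1_liftable M), x1_phi_apply]
    refine Prod.ext ?_ ?_
    · simp only
      rw [mul_inv_rev, sm_inv]
      simp only [mul_assoc]
    · simp only
      rw [CoxeterSystem.rightInvSeq, List.count_cons]
      push_cast
      congr 1
      set w := M.toCoxeterSystem.wordProd ω
      by_cases h : t = w⁻¹ * sm M b * w
      · have h1 : w * t * w⁻¹ = sm M b := by
          rw [h]
          group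
        rw [if_pos h1]
        have h2 : (w⁻¹ * sm M b * w == t) = true := by
          rw [beq_iff_eq]
          exact h.symm
        rw [if_pos h2]
      · have h1 : ¬ w * t * w⁻¹ = sm M b := by
          intro h2
          apply h
          rw [← h2]
          group
        rw [if_neg h1]
        have h2 : ¬ (w⁻¹ * sm M b * w == t) = true := by
          rw [beq_iff_eq]
          exact fun h3 => h h3.symm
        rw [if_neg h2]

/-- Proof. Write `cs = M.toCoxeterSystem`. For `b : B` let `φ b` be the permutation of
`M.Group × ZMod 2` with `φ b (t, ε) = (s t s, ε + [t = s])`, `s = sm M b`. For a word `ω` with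
product `w` the composition `φ ω` of the `φ b`, `b ∈ ω`, maps `(t, ε)` to
`(w t w⁻¹, ε + (number of occurrences of t in the list cs.rightInvSeq ω))` (induction on `ω`).
The `φ b` satisfy the Coxeter relations, since the right inversion sequence (or the left one, see
`getElem_leftInvSeq_alternatingWord`) of the alternating word with `2 * M b c` letters is periodic
with period `M b c`, so each `t` occurs an even number of times in it. So by `cs.lift` the parity
`n w t` of the number of occurrences of `t` in `cs.rightInvSeq ω` only depends on the product `w` of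
`ω`. If `ℓ (w t) < ℓ w` for the simple reflection `t`, then a reduced word of `w t` followed by `t` is
a reduced word of `w`, and the list of a reduced word has no duplicates
(`IsReduced.nodup_rightInvSeq`), so `n w t = 1`, and `t` occurs in `cs.rightInvSeq ω` for every
reduced word `ω` of `w`: so `w t` is the product of `ω` with one letter erased
(`wordProd_mul_getD_rightInvSeq`). Apply this to `s w` in place of `w` with the word `b :: ω`, `ω` a
reduced word of `w`: if the erased letter is the first one, then `s w t = w`, which is the claim;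
otherwise `s w t = s w'` with `ℓ w' ≤ ℓ w - 1` and `w t = w'`, in contradiction to `h2`. -/
theorem exch {B : Type} {M : CoxeterMatrix B} {w : M.Group} {b c : B}
    (h1 : len M (sm M b * w) = len M w + 1) (h2 : len M (w * sm M c) = len M w + 1)
    (h3 : len M (sm M b * w * sm M c) ≤ len M w) : sm M b * w = w * sm M c := by
  classical
  set cs := M.toCoxeterSystem with hcs
  obtain ⟨ω, hω1, hω2⟩ := cs.exists_isReduced w
  obtain ⟨ν, hν1, hν2⟩ := cs.exists_isReduced (sm M b * w * sm M c)
  have hlen : len M (sm M b * w * sm M c) = len M w := by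
    have h4 := cs.length_mul_simple (sm M b * w) c
    change len M (sm M b * w * sm M c) = len M (sm M b * w) + 1 ∨
      len M (sm M b * w * sm M c) + 1 = len M (sm M b * w) at h4
    omega
  have hprod : cs.wordProd (ν.concat c) = cs.wordProd (b :: ω) := by
    rw [cs.wordProd_concat, cs.wordProd_cons, ← hν2, ← hω2]
    change sm M b * w * sm M c * sm M c = sm M b * w
    rw [mul_assoc, sm_sm, mul_one]
  have hred : cs.IsReduced (ν.concat c) := by
    unfold CoxeterSystem.IsReduced
    rw [hprod, List.length_concat, ← hν1.eq, ← hν2, cs.wordProd_cons, ← hω2]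
    change len M (sm M b * w) = len M (sm M b * w * sm M c) + 1
    omega
  have hmem : sm M c ∈ cs.rightInvSeq (ν.concat c) := by
    rw [cs.rightInvSeq_concat]
    simp only [List.concat_eq_append, List.mem_append, List.mem_singleton]
    exact Or.inr rfl
  have hc1 : (cs.rightInvSeq (ν.concat c)).count (sm M c) = 1 :=
    List.count_eq_one_of_mem hred.nodup_rightInvSeq hmem
  have k1 := x1_word M (ν.concat c) (sm M c)
  have k2 := x1_word M (b :: ω) (sm M c)
  rw [← hcs, hprod] at k1
  rw [← hcs, k1] at k2
  have k3 := congrArg Prod.snd k2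
  simp only at k3
  rw [hc1, Nat.cast_one] at k3
  have hmem2 : sm M c ∈ cs.rightInvSeq (b :: ω) := by
    by_contra hn
    rw [List.count_eq_zero_of_not_mem hn, Nat.cast_zero] at k3
    exact one_ne_zero k3
  rw [CoxeterSystem.rightInvSeq, List.mem_cons] at hmem2
  rcases hmem2 with h | h
  · rw [h, ← hω2]
    change sm M b * w = w * (w⁻¹ * sm M b * w)
    group
  · exfalso
    have h5 := (cs.isRightInversion_of_mem_rightInvSeq hω1 h).2
    rw [← hω2] at h5
    change len M (w * sm M c) < len M w at h5
    omega

end Pool.Agent.Helper35.KL
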