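import Pool.Agent.Helper35.KL.Ex.X1

/-!
# Existence of the generic Hecke algebra
-/

namespace Pool.Agent.Helper35.KL

section x2

variable {B : Type} {M : CoxeterMatrix B} {R : Type} [CommRing R] {E : Type} [AddCommGroup E]
  [Module R E]

/-- the parameters are constant on the classes that matter -/
def x2_ok (M : CoxeterMatrix B) (ξ : B → R) : Prop :=
  ∀ b c (w : M.Group), sm M b * w = w * sm M c → ξ b = ξ c

open Classical in
/-- the coefficient of the second term of the left multiplication -/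
noncomputable def x2_dl (M : CoxeterMatrix B) (ξ : B → R) (b : B) (w : M.Group) : R :=
  if len M (sm M b * w) < len M w then ξ b else 0

open Classical in
/-- the coefficient of the second term of the right multiplication -/
noncomputable def x2_dr (M : CoxeterMatrix B) (ξ : B → R) (c : B) (w : M.Group) : R :=
  if len M (w * sm M c) < len M w then ξ c else 0

/-- left multiplication -/
noncomputable def x2_lam (e : Module.Basis M.Group R E) (ξ : B → R) (b : B) :
    Module.End R E :=
  e.constr R fun w => e (sm M b * w) + x2_dl M ξ b w • e w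

/-- right multiplication -/
noncomputable def x2_rho (e : Module.Basis M.Group R E) (ξ : B → R) (c : B) :
    Module.End R E :=
  e.constr R fun w => e (w * sm M c) + x2_dr M ξ c w • e w

theorem x2_lam_e (e : Module.Basis M.Group R E) (ξ : B → R) (b : B) (w : M.Group) :
    x2_lam e ξ b (e w) = e (sm M b * w) + x2_dl M ξ b w • e w := by
  exact e.constr_basis R _ w

theorem x2_rho_e (e : Module.Basis M.Group R E) (ξ : B → R) (c : B) (w : M.Group) :
    x2_rho e ξ c (e w) = e (w * sm M c) + x2_dr M ξ c w • e w := by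
  exact e.constr_basis R _ w

theorem x2_sl (b : B) (w : M.Group) :
    len M (sm M b * w) = len M w + 1 ∨ len M (sm M b * w) + 1 = len M w :=
  M.toCoxeterSystem.length_simple_mul w b

theorem x2_sr (c : B) (w : M.Group) :
    len M (w * sm M c) = len M w + 1 ∨ len M (w * sm M c) + 1 = len M w :=
  M.toCoxeterSystem.length_mul_simple w c

theorem x2_ss (b : B) (w : M.Group) : sm M b * (sm M b * w) = w :=
  M.toCoxeterSystem.simple_mul_simple_cancel_left b

theorem x2_ss' (b : B) (w : M.Group) : w * sm M b * sm M b = w :=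
  M.toCoxeterSystem.simple_mul_simple_cancel_right b

theorem x2_len_one : len M (1 : M.Group) = 0 := M.toCoxeterSystem.length_one

theorem x2_len_sm (b : B) : len M (sm M b) = 1 := M.toCoxeterSystem.length_simple b

/-- if `s w = w t` the weights agree -/
theorem x2_weight {L : M.Group → ℤ} (hL : IsWeight M L) {b c : B} {w : M.Group}
    (h : sm M b * w = w * sm M c) : L (sm M b) = L (sm M c) := by
  rcases x2_sl b w with h1 | h1
  · have e1 := hL.add (sm M b) w (by rw [x2_len_sm]; omega)
    have e2 := hL.add w (sm M c) (by rw [x2_len_sm, ← h]; omega)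
    rw [h] at e1
    omega
  · have e1 := hL.add (sm M b) (sm M b * w) (by rw [x2_len_sm, x2_ss]; omega)
    have e2 := hL.add (w * sm M c) (sm M c) (by rw [x2_len_sm, x2_ss', ← h]; omega)
    rw [x2_ss] at e1
    rw [x2_ss'] at e2
    rw [h] at e1
    omega

theorem x2_comm_e (e : Module.Basis M.Group R E) {ξ : B → R} (hξ : x2_ok M ξ) (b c : B) (w : M.Group) :
    x2_lam e ξ b (x2_rho e ξ c (e w)) = x2_rho e ξ c (x2_lam e ξ b (e w)) := by
  rw [x2_rho_e, x2_lam_e, map_add, map_add, map_smul, map_smul, x2_lam_e, x2_lam_e, x2_rho_e,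
    x2_rho_e, ← mul_assoc]
  -- the lengths
  have l1 := x2_sl b w
  have l2 := x2_sr c w
  have l3 := x2_sl b (w * sm M c)
  have l4 := x2_sr c (sm M b * w)
  rw [← mul_assoc] at l3
  by_cases hw : sm M b * w = w * sm M c
  · have hxi := hξ b c w hw
    have hl : len M (sm M b * w) = len M (w * sm M c) := by rw [hw]
    have e1 : sm M b * (w * sm M c) = w := by rw [← hw, x2_ss]
    have e2 : w * sm M c * sm M c = w := x2_ss' c w
    simp only [x2_dl, x2_dr, hw, e1, e2, hxi]
  · have f1 : ¬ (len M (sm M b * w) = len M w + 1 ∧ len M (w * sm M c) = len M w + 1 ∧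
        len M (sm M b * w * sm M c) ≤ len M w) := fun h => hw (exch h.1 h.2.1 h.2.2)
    have f2 : ¬ (len M (sm M b * w) + 1 = len M w ∧ len M (w * sm M c) + 1 = len M w ∧
        len M w ≤ len M (sm M b * w * sm M c)) := by
      intro h
      obtain ⟨g1, g2, g3⟩ := h
      have h3 : len M (sm M b * (sm M b * w) * sm M c) ≤ len M (sm M b * w) := by
        rw [x2_ss]
        omega
      have h1 : len M (sm M b * (sm M b * w)) = len M (sm M b * w) + 1 := by
        rw [x2_ss]
        omega
      have h2 : len M (sm M b * w * sm M c) = len M (sm M b * w) + 1 := by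
        omega
      have h4 := exch h1 h2 h3
      rw [x2_ss] at h4
      apply hw
      conv_rhs => rw [h4, x2_ss']
    have g1 : x2_dl M ξ b (w * sm M c) = x2_dl M ξ b w := by
      simp only [x2_dl, ← mul_assoc]
      by_cases h : len M (sm M b * w) < len M w
      · rw [if_pos h, if_pos (by omega)]
      · rw [if_neg h, if_neg (by omega)]
    have g2 : x2_dr M ξ c (sm M b * w) = x2_dr M ξ c w := by
      simp only [x2_dr]
      by_cases h : len M (w * sm M c) < len M w
      · rw [if_pos h, if_pos (by omega)]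
      · rw [if_neg h, if_neg (by omega)]
    rw [g1, g2, smul_add, smul_add, smul_smul, smul_smul, mul_comm (x2_dl M ξ b w)]
    abel

theorem x2_ext (e : Module.Basis M.Group R E) {f g : Module.End R E}
    (h : ∀ w, f (e w) = g (e w)) : f = g := e.ext h

theorem x2_comm (e : Module.Basis M.Group R E) {ξ : B → R} (hξ : x2_ok M ξ) (b c : B) :
    x2_lam e ξ b * x2_rho e ξ c = x2_rho e ξ c * x2_lam e ξ b :=
  x2_ext e fun w => x2_comm_e e hξ b c w

/-- the algebra -/
noncomputable def x2_H (e : Module.Basis M.Group R E) (ξ : B → R) :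
    Subalgebra R (Module.End R E) :=
  Algebra.adjoin R (Set.range (x2_lam e ξ))

theorem x2_H_comm (e : Module.Basis M.Group R E) {ξ : B → R} (hξ : x2_ok M ξ) (c : B)
    (f : Module.End R E) (hf : f ∈ x2_H e ξ) :
    f * x2_rho e ξ c = x2_rho e ξ c * f := by
  induction hf using Algebra.adjoin_induction with
  | mem x hx =>
    obtain ⟨b, rfl⟩ := hx
    exact x2_comm e hξ b c
  | algebraMap r => exact Algebra.commutes r _
  | add x y _ _ hx hy => rw [add_mul, mul_add, hx, hy]
  | mul x y _ _ hx hy => rw [mul_assoc, hy, ← mul_assoc, hx, mul_assoc]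

/-- evaluation at the first basis vector -/
noncomputable def x2_ev (e : Module.Basis M.Group R E) (ξ : B → R) :
    x2_H e ξ →ₗ[R] E where
  toFun f := f.1 (e 1)
  map_add' _ _ := rfl
  map_smul' _ _ := rfl

theorem x2_zero (e : Module.Basis M.Group R E) {ξ : B → R} (hξ : x2_ok M ξ)
    (f : Module.End R E) (hf : f ∈ x2_H e ξ) (h0 : f (e 1) = 0) :
    ∀ n (w : M.Group), len M w = n → f (e w) = 0 := by
  intro n
  induction n with
  | zero =>
    intro w hw
    have : w = 1 := M.toCoxeterSystem.length_eq_zero_iff.1 hw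
    rw [this]
    exact h0
  | succ n ih =>
    intro w hw
    have hw1 : w ≠ 1 := by
      rintro rfl
      rw [x2_len_one] at hw
      omega
    obtain ⟨c, hc⟩ := M.toCoxeterSystem.exists_rightDescent_of_ne_one hw1
    have hc' : len M (w * sm M c) < len M w := hc
    have h1 : len M (w * sm M c) = n := by
      rcases x2_sr c w with h | h <;> omega
    have h2 := ih _ h1
    have h3 : x2_rho e ξ c (e (w * sm M c)) = e w := by
      rw [x2_rho_e, x2_ss', x2_dr, if_neg, zero_smul, add_zero]
      rw [x2_ss']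
      omega
    have h4 := LinearMap.congr_fun (x2_H_comm e hξ c f hf) (e (w * sm M c))
    rw [Module.End.mul_apply, Module.End.mul_apply, h3, h2, map_zero] at h4
    exact h4

theorem x2_inj (e : Module.Basis M.Group R E) {ξ : B → R} (hξ : x2_ok M ξ) : Function.Injective (x2_ev e ξ) := by
  rw [injective_iff_map_eq_zero]
  intro f hf
  have h1 := x2_zero e hξ f.1 f.2 hf
  exact Subtype.ext (x2_ext e fun w => h1 _ w rfl)

theorem x2_lam_mem (e : Module.Basis M.Group R E) (ξ : B → R) (b : B) : x2_lam e ξ b ∈ x2_H e ξ :=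
  Algebra.subset_adjoin ⟨b, rfl⟩

theorem x2_lam_up (e : Module.Basis M.Group R E) (ξ : B → R) (b : B) (w : M.Group)
    (h : len M (sm M b * w) = len M w + 1) : x2_lam e ξ b (e w) = e (sm M b * w) := by
  rw [x2_lam_e, x2_dl, if_neg (by omega), zero_smul, add_zero]

theorem x2_exists (e : Module.Basis M.Group R E) (ξ : B → R) : ∀ n (w : M.Group), len M w = n →
    ∃ f ∈ x2_H e ξ, f (e 1) = e w := by
  intro n
  induction n with
  | zero =>
    intro w hw
    have : w = 1 := M.toCoxeterSystem.length_eq_zero_iff.1 hw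
    rw [this]
    exact ⟨1, one_mem _, rfl⟩
  | succ n ih =>
    intro w hw
    have hw1 : w ≠ 1 := by
      rintro rfl
      rw [x2_len_one] at hw
      omega
    obtain ⟨b, hb⟩ := M.toCoxeterSystem.exists_leftDescent_of_ne_one hw1
    have hb' : len M (sm M b * w) < len M w := hb
    have h1 : len M (sm M b * w) = n := by
      rcases x2_sl b w with h | h <;> omega
    obtain ⟨f, hf, hf1⟩ := ih _ h1
    refine ⟨x2_lam e ξ b * f, mul_mem (x2_lam_mem e ξ b) hf, ?_⟩
    rw [Module.End.mul_apply, hf1, x2_lam_up, x2_ss]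
    rw [x2_ss]
    omega

theorem x2_surj (e : Module.Basis M.Group R E) (ξ : B → R) :
    Function.Surjective (x2_ev e ξ) := by
  rw [← LinearMap.range_eq_top, eq_top_iff, ← e.span_eq, Submodule.span_le]
  rintro _ ⟨w, rfl⟩
  obtain ⟨f, hf, hf1⟩ := x2_exists e ξ _ w rfl
  exact ⟨⟨f, hf⟩, hf1⟩

/-- the basis -/
noncomputable def x2_T (e : Module.Basis M.Group R E) {ξ : B → R} (hξ : x2_ok M ξ) :
    Module.Basis M.Group R (x2_H e ξ) :=
  e.map (LinearEquiv.ofBijective (x2_ev e ξ) ⟨x2_inj e hξ, x2_surj e ξ⟩).symm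

theorem x2_T_one (e : Module.Basis M.Group R E) {ξ : B → R} (hξ : x2_ok M ξ) (w : M.Group) :
    (x2_T e hξ w).1 (e 1) = e w := by
  have h1 : (LinearEquiv.ofBijective (x2_ev e ξ) ⟨x2_inj e hξ, x2_surj e ξ⟩) (x2_T e hξ w) =
      e w := by
    rw [x2_T, Module.Basis.map_apply, LinearEquiv.apply_symm_apply]
  exact h1

theorem x2_T_unique (e : Module.Basis M.Group R E) {ξ : B → R} (hξ : x2_ok M ξ) (f g : x2_H e ξ)
    (h : f.1 (e 1) = g.1 (e 1)) : f = g := x2_inj e hξ h

theorem x2_T_id (e : Module.Basis M.Group R E) {ξ : B → R} (hξ : x2_ok M ξ) :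
    x2_T e hξ 1 = 1 :=
  x2_T_unique e hξ _ _ (x2_T_one e hξ 1)

theorem x2_T_step (e : Module.Basis M.Group R E) {ξ : B → R} (hξ : x2_ok M ξ) (b : B) (w : M.Group)
    (h : len M (sm M b * w) = len M w + 1) :
    x2_T e hξ (sm M b * w) = (⟨x2_lam e ξ b, x2_lam_mem e ξ b⟩ : x2_H e ξ) * x2_T e hξ w := by
  refine x2_T_unique e hξ _ _ ?_
  rw [x2_T_one]
  have h1 : ((⟨x2_lam e ξ b, x2_lam_mem e ξ b⟩ : x2_H e ξ) * x2_T e hξ w).1 (e 1) =
      x2_lam e ξ b ((x2_T e hξ w).1 (e 1)) := rfl
  rw [h1, x2_T_one, x2_lam_up e ξ b w h]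

theorem x2_T_apply (e : Module.Basis M.Group R E) {ξ : B → R} (hξ : x2_ok M ξ) : ∀ n (w w' : M.Group),
    len M w = n → len M (w * w') = len M w + len M w' →
      (x2_T e hξ w).1 (e w') = e (w * w') := by
  intro n
  induction n with
  | zero =>
    intro w w' hw _
    have : w = 1 := M.toCoxeterSystem.length_eq_zero_iff.1 hw
    subst this
    rw [x2_T_id, one_mul]
    rfl
  | succ n ih =>
    intro w w' hw hww
    have hw1 : w ≠ 1 := by
      rintro rfl
      rw [x2_len_one] at hw
      omega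
    obtain ⟨b, hb⟩ := M.toCoxeterSystem.exists_leftDescent_of_ne_one hw1
    have hb' : len M (sm M b * w) < len M w := hb
    obtain ⟨w₁, hw₁⟩ : ∃ w₁, w₁ = sm M b * w := ⟨_, rfl⟩
    have hw₁' : w = sm M b * w₁ := by rw [hw₁, x2_ss]
    have h1 : len M w₁ = n := by
      rw [hw₁]
      rcases x2_sl b w with h | h <;> omega
    have h2 : len M (w₁ * w') = len M w₁ + len M w' := by
      have g1 : len M (w₁ * w') ≤ len M w₁ + len M w' := M.toCoxeterSystem.length_mul_le _ _
      have g2 := x2_sl b (w₁ * w')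
      rw [← mul_assoc, ← hw₁'] at g2
      omega
    have h3 := ih w₁ w' h1 h2
    rw [hw₁', x2_T_step e hξ b w₁ (by rw [← hw₁']; omega)]
    have h4 : ((⟨x2_lam e ξ b, x2_lam_mem e ξ b⟩ : x2_H e ξ) * x2_T e hξ w₁).1 (e w') =
      x2_lam e ξ b ((x2_T e hξ w₁).1 (e w')) := rfl
    rw [h4, h3, x2_lam_up, mul_assoc]
    rw [← mul_assoc, ← hw₁']
    omega

theorem x2_main (e : Module.Basis M.Group R E) {ξ : B → R} (hξ : x2_ok M ξ) :
    ∃ (H : Type) (_ : Ring H) (_ : Algebra R H) (T : Module.Basis M.Group R H),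
      (∀ w w', len M (w * w') = len M w + len M w' → T (w * w') = T w * T w') ∧
      ∀ b, T (sm M b) * T (sm M b) = 1 + ξ b • T (sm M b) := by
  refine ⟨x2_H e ξ, inferInstance, inferInstance, x2_T e hξ, ?_, ?_⟩
  · intro w w' h
    refine x2_T_unique e hξ _ _ ?_
    rw [x2_T_one]
    have h1 : (x2_T e hξ w * x2_T e hξ w').1 (e 1) =
      (x2_T e hξ w).1 ((x2_T e hξ w').1 (e 1)) := rfl
    rw [h1, x2_T_one, x2_T_apply e hξ _ w w' rfl h]
  · intro b
    have hs : x2_T e hξ (sm M b) = (⟨x2_lam e ξ b, x2_lam_mem e ξ b⟩ : x2_H e ξ) := by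
      have h1 := x2_T_step e hξ b 1 (by rw [mul_one, x2_len_sm, x2_len_one])
      rw [mul_one, x2_T_id, mul_one] at h1
      exact h1
    refine x2_T_unique e hξ _ _ ?_
    have h1 : (x2_T e hξ (sm M b) * x2_T e hξ (sm M b)).1 (e 1) =
      (x2_T e hξ (sm M b)).1 ((x2_T e hξ (sm M b)).1 (e 1)) := rfl
    have h2 : ((1 : x2_H e ξ) + ξ b • x2_T e hξ (sm M b)).1
        (e 1) = e 1 + ξ b • ((x2_T e hξ (sm M b)).1 (e 1)) := rfl
    rw [h1, h2, x2_T_one, hs]
    have h3 : x2_lam e ξ b (e (sm M b)) = e 1 + ξ b • e (sm M b) := by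
      have h4 : sm M b * sm M b = 1 := M.toCoxeterSystem.simple_mul_simple_self b
      rw [x2_lam_e, x2_dl, h4, if_pos]
      rw [x2_len_one, x2_len_sm]
      omega
    exact h3

end x2

/-- Proof. Let `E = M.Group →₀ LP` with the basis `e w`, and `ξ b = qq (L (sm M b)) - qq (-L (sm M b))`
(`KLD.xi`). Let `λ b` be the linear map with `λ b (e w) = e (s w)` if `ℓ (s w) = ℓ w + 1`, and
`e (s w) + ξ b • e w` otherwise, and `ρ c` the linear map with `ρ c (e w) = e (w t)` if
`ℓ (w t) = ℓ w + 1` and `e (w t) + ξ c • e w` otherwise. Then `λ b` and `ρ c` commute: this is a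
case distinction on the lengths of `w, s w, w t, s w t`; the only cases that need an argument are
`ℓ (s w) = ℓ (w t) = ℓ w + 1`, `ℓ (s w t) ≤ ℓ w`, where `exch` gives `s w = w t`, and
`ℓ (s w) = ℓ (w t) = ℓ w - 1`, `ℓ (s w t) ≥ ℓ w`, where `exch` for `s w t` in place of `w` gives
`s w = w t` too; then `ξ b = ξ c`, since `L s + L w' = L (s w') = L (w' t) = L w' + L t` with
`w' = w` or `w' = s w t`, by `hL.add`.
Let `H` be the subalgebra of `Module.End LP E` generated by the `λ b`. The evaluation
`f ↦ f (e 1)` is a bijection from `H` to `E`: it is surjective, because `λ b₁ ⋯ λ bₖ (e 1) = e w` for a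
reduced word, and if `f (e 1) = 0` then `f (e w) = f (ρ .. (e 1)) = ρ .. (f (e 1)) = 0`, because `f`
commutes with all `ρ c`. Let `T` be the basis that corresponds to `e`. `T w = λ b₁ ⋯ λ bₖ` for a
reduced word of `w`, so `T w` maps `e w'` to `e (w w')` if `ℓ (w w') = ℓ w + ℓ w'`; this gives
`T_mul`, and `T_sq` is clear. -/
theorem exists_hecke {B : Type} (M : CoxeterMatrix B) (L : M.Group → ℤ) (hL : IsWeight M L) :
    ∃ (H : Type) (_ : Ring H) (_ : Algebra LP H) (T : Module.Basis M.Group LP H),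
      (∀ w w', len M (w * w') = len M w + len M w' → T (w * w') = T w * T w') ∧
      ∀ b, T (sm M b) * T (sm M b) = 1 + (qq (L (sm M b)) - qq (-L (sm M b))) • T (sm M b) := by
  refine x2_main (R := LP) (E := M.Group →₀ LP) Finsupp.basisSingleOne (ξ := fun b => qq (L (sm M b)) - qq (-L (sm M b))) ?_
  intro b c w h
  simp only [x2_weight hL h]

end Pool.Agent.Helper35.KL
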